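import Mathlib
import Pool.Agent.H.MP_8c175f_gt.B

namespace Pool.Agent.Results.MP_0abb29_gt.Counter

open Pool.Agent.H.MP_8c175f_gt

/-- A copy of a type carrying the discrete topology. -/
def Disc (X : Type) : Type := X

instance (X : Type) : TopologicalSpace (Disc X) := ⊥

instance (X : Type) : DiscreteTopology (Disc X) := ⟨rfl⟩

/-- There are a discretely Lindelof T1 space X, a compact Hausdorff space K and a discrete subset
of the product whose closure is not Lindelof. -/
theorem result : ∃ (X : Type) (_ : TopologicalSpace X) (K : Type) (_ : TopologicalSpace K),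
    T1Space X ∧ (∀ D : Set X, DiscreteTopology D → IsLindelof (closure D)) ∧
    CompactSpace K ∧ T2Space K ∧
    ∃ D : Set (X × K), DiscreteTopology D ∧ ¬ IsLindelof (closure D) := by
  obtain ⟨Λ, _, _, f, lam, hg⟩ := exists_good
  let X := Sp (fun _ => False) f
  refine ⟨X, inferInstance, OnePoint (Disc X), inferInstance, inferInstance,
    disc_lind hg (b0 := false) (by simp), inferInstance, inferInstance,
    Set.range (fun x : X => (x, OnePoint.some (show Disc X from x))), ?_, fun h => ?_⟩
  · rw [discreteTopology_subtype_iff']
    rintro _ ⟨x, rfl⟩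
    refine ⟨Prod.snd ⁻¹' (OnePoint.some '' {show Disc X from x}),
      (OnePoint.isOpen_image_coe.2 (isOpen_discrete _)).preimage continuous_snd, ?_⟩
    ext z
    constructor
    · rintro ⟨⟨y, rfl, hy⟩, w, rfl⟩
      have : (y : X) = w := OnePoint.coe_injective hy
      subst this
      rfl
    · rintro rfl
      exact ⟨⟨_, rfl, rfl⟩, x, rfl⟩
  · refine not_lindelof (G := fun _ => False) hg ?_
    have h2 := h.image continuous_fst
    convert h2
    refine (Set.eq_univ_of_forall fun x => ?_).symm
    exact ⟨_, subset_closure ⟨x, rfl⟩, rfl⟩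

end Pool.Agent.Results.MP_0abb29_gt.Counter
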